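import Mathlib
import Pool.Agent.H83.FunTop

set_option autoImplicit false

namespace Pool.Agent.Results.MP_150402_gt.NotRegular

open Set Filter Topology TopologicalSpace H83.FunTop

def fub : Filter (ℕ × ℕ) := (atTop : Filter ℕ).curry atTop

instance : fub.NeBot := ⟨fun h => by
  have : ∀ᶠ _p in fub, False := by rw [h]; exact eventually_bot
  obtain ⟨a, ha⟩ := (eventually_curry_iff.1 this).exists
  exact ha.exists.elim fun _ h => h⟩

noncomputable def ul : Ultrafilter (ℕ × ℕ) := Ultrafilter.of fub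

theorem ul_mem {B : Set (ℕ × ℕ)} (h : ∀ᶠ a in atTop, ∀ᶠ b in atTop, (a, b) ∈ B) : B ∈ ul :=
  Ultrafilter.of_le fub (eventually_curry_iff.2 h)

def Sp : Type := Option (ℕ × ℕ)

instance : TopologicalSpace Sp where
  IsOpen W := none ∈ W → some ⁻¹' W ∈ ul
  isOpen_univ := fun _ => univ_mem
  isOpen_inter := fun _ _ hV hW h => inter_mem (hV h.1) (hW h.2)
  isOpen_sUnion := fun _ hT ⟨W, hW, h⟩ =>
    mem_of_superset (hT W hW h) (preimage_mono (subset_sUnion_of_mem hW))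

def hat (A : Set (ℕ × ℕ)) : Set Sp := {y | Option.elim y (A ∈ ul) (· ∈ A)}

theorem hat_clopen (A : Set (ℕ × ℕ)) : IsClopen (hat A) :=
  ⟨⟨fun h => Ultrafilter.compl_mem_iff_notMem.2 h⟩, fun h => h⟩

theorem fin_notMem {A : Set (ℕ × ℕ)} (h : A.Finite) : A ∉ ul := by
  obtain ⟨b, hb⟩ := (h.image Prod.fst).bddAbove
  refine Ultrafilter.compl_mem_iff_notMem.1 (ul_mem ?_)
  filter_upwards [eventually_gt_atTop b] with a ha
  exact Eventually.of_forall fun c hc => ha.not_ge (hb ⟨_, hc, rfl⟩)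

theorem hat_single (x : ℕ × ℕ) : hat {x} = {some x} := by
  ext (_ | y)
  · exact ⟨fun h => (fin_notMem (finite_singleton x) h).elim, fun h => by cases h⟩
  · exact ⟨fun h => congrArg some h, fun h => Option.some_injective _ h⟩

theorem clopen_single (x : ℕ × ℕ) : IsClopen ({some x} : Set Sp) := hat_single x ▸ hat_clopen _

instance : T2Space Sp := ⟨by
  rintro (_ | x) y h
  · rcases y with _ | y
    · exact (h rfl).elim
    · exact ⟨_, _, (clopen_single y).compl.isOpen, (clopen_single y).isOpen, h, rfl,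
        disjoint_compl_left⟩
  · exact ⟨_, _, (clopen_single x).isOpen, (clopen_single x).compl.isOpen, rfl, h.symm,
      disjoint_compl_right⟩⟩

instance : RegularSpace Sp := by
  refine RegularSpace.of_exists_mem_nhds_isClosed_subset fun y s hs => ?_
  obtain ⟨W, hW, ho, hy⟩ := mem_nhds_iff.1 hs
  rcases y with _ | x
  · refine ⟨hat (some ⁻¹' W), (hat_clopen _).isOpen.mem_nhds (ho hy), (hat_clopen _).isClosed, ?_⟩
    rintro (_ | z) hz
    exacts [hW hy, hW hz]
  · exact ⟨_, (clopen_single x).isOpen.mem_nhds rfl, isClosed_singleton,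
      singleton_subset_iff.2 (hW hy)⟩

noncomputable def ind {W : Set Sp} (h : IsClopen W) : C(Sp, Bool) :=
  ⟨W.boolIndicator, (continuous_boolIndicator_iff_isClopen _).2 h⟩

theorem mem_OZ {W : Set Sp} (h : IsClopen W) : W ∈ OZ Sp Bool :=
  ⟨ind h, {true}, isOpen_discrete _, by ext y; exact mem_iff_boolIndicator _ _⟩

noncomputable def chi (A : Set (ℕ × ℕ)) : C(Sp, Bool) := ind (hat_clopen A)

theorem chi_true {A : Set (ℕ × ℕ)} {y : Sp} (h : y ∈ hat A) : chi A y = true :=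
  (mem_iff_boolIndicator _ _).1 h

theorem chi_false {A : Set (ℕ × ℕ)} {y : Sp} (h : y ∉ hat A) : chi A y = false :=
  (notMem_iff_boolIndicator _ _).1 h

theorem ev {ι : Type} {Φ : Filter ι} {H : Set (Set Sp)} (hH : H ∈ zScott Sp Bool)
    {𝒰 : Set (Set Sp)} (hc : ∀ V ∈ 𝒰, IsClopen V) (hU : ⋃₀ 𝒰 ∈ H) {W : ι → Set Sp}
    (hW : ∀ i, IsOpen (W i)) (h : ∀ V ∈ 𝒰, ∀ᶠ i in Φ, V ⊆ W i) : ∀ᶠ i in Φ, W i ∈ H := by
  obtain ⟨ℱ, h1, h2, h3⟩ := hH.2.2 𝒰 (fun V hV => mem_OZ (hc V hV)) hU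
  filter_upwards [(eventually_all_finite h2).2 fun V hV => h V (h1 hV)] with i hi
  refine hH.2.1 _ ⟨h3, mem_OZ ?_⟩ _ (hW i) (sUnion_subset hi)
  rw [sUnion_eq_biUnion]
  exact h2.isClopen_biUnion fun V hV => hc V (h1 hV)

theorem tail {H : Set (Set Sp)} (hH : H ∈ zScott Sp Bool) (hu : univ ∈ H) :
    ∃ k, ∀ G : Finset (ℕ × ℕ), (∀ x ∈ G, k ≤ x.1 + x.2) → (hat G)ᶜ ∈ H := by
  by_contra hn
  push Not at hn
  choose G hG hGH using hn
  let φ : ℕ → ℕ := fun j => Nat.rec 0 (fun _ a => a + (G a).sup (fun x => x.1 + x.2) + 1) j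
  have hφ : StrictMono φ := strictMono_nat_of_lt_succ fun j => by
    change φ j < φ j + _ + 1; omega
  have hlt : ∀ j, ∀ x ∈ G (φ j), x.1 + x.2 < φ (j + 1) := fun j x hx => by
    have := Finset.le_sup (f := fun x : ℕ × ℕ => x.1 + x.2) hx
    change _ < φ j + (G (φ j)).sup (fun x => x.1 + x.2) + 1
    omega
  have key : ∀ ψ : ℕ → ℕ, (∀ j, j ≤ ψ j) → (⋃ j, (G (φ (ψ j)) : Set (ℕ × ℕ))) ∈ ul := by
    intro ψ hψ
    by_contra hB
    have := ev (Φ := atTop) hH (𝒰 := insert (hat (⋃ j, (G (φ (ψ j)) : Set (ℕ × ℕ))))ᶜ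
      (range fun x => {some x})) (W := fun j => (hat (G (φ (ψ j))))ᶜ) (by
        rintro _ (rfl | ⟨x, rfl⟩)
        exacts [(hat_clopen _).compl, clopen_single x]) (by
        convert hu
        refine eq_univ_of_forall ?_
        rintro (_ | x)
        exacts [⟨_, Or.inl rfl, hB⟩, ⟨_, Or.inr ⟨x, rfl⟩, rfl⟩])
      (fun j => (hat_clopen _).compl.isOpen) (by
        rintro _ (rfl | ⟨x, rfl⟩)
        · refine Eventually.of_forall fun j => compl_subset_compl.2 ?_
          rintro (_ | y) hy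
          exacts [(fin_notMem (Finset.finite_toSet _) hy).elim, mem_iUnion.2 ⟨j, hy⟩]
        · filter_upwards [eventually_gt_atTop (x.1 + x.2)] with j hj
          refine singleton_subset_iff.2 fun hx => ?_
          have h1 := hG _ x hx
          have h2 := hφ.le_apply (x := ψ j)
          have h3 := hψ j
          omega)
    obtain ⟨j, hj⟩ := this.exists
    exact hGH _ hj
  obtain ⟨x, h1, h2⟩ := Ultrafilter.nonempty_of_mem (inter_mem
    (key (fun j => 2 * j) fun j => by omega) (key (fun j => 2 * j + 1) fun j => by omega))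
  obtain ⟨a, ha⟩ := mem_iUnion.1 h1
  obtain ⟨b, hb⟩ := mem_iUnion.1 h2
  have a1 := hG _ x ha
  have a2 := hG _ x hb
  have a3 := hlt (2 * a) x ha
  have a4 := hlt (2 * b + 1) x hb
  have e1 := (hφ.lt_iff_lt (b := 2 * b + 1 + 1)).1 (a1.trans_lt a4)
  have e2 := (hφ.lt_iff_lt (a := 2 * b + 1) (b := 2 * a + 1)).1 (a2.trans_lt a3)
  omega

def J (k : ℕ) : Set (ℕ × ℕ) := {x | x.1 ≤ k ∧ k ≤ x.1 + x.2}

theorem J_notMem (k : ℕ) : J k ∉ ul := by
  refine Ultrafilter.compl_mem_iff_notMem.1 (ul_mem ?_)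
  filter_upwards [eventually_gt_atTop k] with a ha
  exact Eventually.of_forall fun c hc => ha.not_ge hc.1

def HD : Set (Set Sp) := {W | IsOpen W ∧ none ∈ W ∧ ∀ k, ∃ x ∈ J k, some x ∈ W}

theorem HD_mem : HD ∈ zScott Sp Bool := by
  refine ⟨fun W hW => hW.1, fun W hW V hV h => ⟨hV, h hW.1.2.1, fun k =>
    (hW.1.2.2 k).imp fun x hx => ⟨hx.1, h hx.2⟩⟩, fun 𝒰 hU ⟨_, ⟨W, hW, h0⟩, h1⟩ => ?_⟩
  have ho : ∀ V ∈ 𝒰, IsOpen V := fun V hV => by
    obtain ⟨f, U, h, rfl⟩ := hU hV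
    exact h.preimage f.continuous
  have hfin : {k | ∀ x ∈ J k, some x ∉ W}.Finite := by
    by_contra hinf
    refine Ultrafilter.compl_mem_iff_notMem.1 (ul_mem (Eventually.of_forall fun a => ?_))
      (ho W hW h0)
    obtain ⟨k, hk, hak⟩ := Infinite.exists_gt hinf a
    filter_upwards [eventually_ge_atTop k] with b hb
    exact hk (a, b) ⟨hak.le, hb.trans (Nat.le_add_left _ _)⟩
  choose x hx V hV hxV using h1
  refine ⟨insert W (V '' {k | ∀ x ∈ J k, some x ∉ W}), insert_subset hW (by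
    rintro _ ⟨k, -, rfl⟩; exact hV k), (hfin.image V).insert W, isOpen_sUnion ?_,
    ⟨W, Or.inl rfl, h0⟩, fun k => ?_⟩
  · rintro _ (rfl | ⟨k, -, rfl⟩)
    exacts [ho _ hW, ho _ (hV k)]
  · by_cases hk : ∀ x ∈ J k, some x ∉ W
    · exact ⟨x k, hx k, _, Or.inr ⟨k, hk, rfl⟩, hxV k⟩
    · push Not at hk
      obtain ⟨y, hy, hyW⟩ := hk
      exact ⟨y, hy, W, Or.inl rfl, hyW⟩

theorem lim1 : Tendsto (fun G : Finset (ℕ × ℕ) => chi G)
    (⨅ k : ℕ, 𝓟 {G | ∀ x ∈ G, k ≤ x.1 + x.2})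
    (@nhds _ (famOpen Sp Bool (zScott Sp Bool)) (ContinuousMap.const _ false)) := by
  refine tendsto_nhds_generateFrom_iff.2 ?_
  rintro _ ⟨H, hH, U, hU, rfl⟩ hm
  have hup := hH.2.1 _ ⟨hm, _, U, hU, rfl⟩
  by_cases hf : false ∈ U
  · obtain ⟨k, hk⟩ := tail hH (hup _ isOpen_univ (subset_univ _))
    refine mem_iInf_of_mem k fun G hG => hH.2.1 _ ⟨hk G hG, mem_OZ (hat_clopen _).compl⟩ _
      (hU.preimage (chi _).continuous) fun y hy => ?_
    rw [mem_preimage, chi_false hy]; exact hf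
  · exact Eventually.of_forall fun G => hup _ (hU.preimage (chi _).continuous)
      fun y hy => (hf hy).elim

open Classical in
theorem lim2 {A : Set (ℕ × ℕ)} (hA : A ∉ ul) :
    Tendsto (fun G : Finset (ℕ × ℕ) => chi (G.filter (· ∈ A))) atTop
      (@nhds _ (famOpen Sp Bool (zScott Sp Bool)) (chi A)) := by
  refine tendsto_nhds_generateFrom_iff.2 ?_
  rintro _ ⟨H, hH, U, hU, rfl⟩ hm
  refine ev hH (𝒰 := insert (chi A ⁻¹' U ∩ (hat A)ᶜ)
    ((fun x => {some x}) '' {x | x ∈ A ∧ true ∈ U})) ?_ ?_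
    (fun G => hU.preimage (chi _).continuous) ?_
  · rintro _ (rfl | ⟨x, -, rfl⟩)
    exacts [((isClopen_discrete U).preimage (chi A).continuous).inter (hat_clopen _).compl,
      clopen_single x]
  · convert (show chi A ⁻¹' U ∈ H from hm)
    ext y
    constructor
    · rintro ⟨_, rfl | ⟨x, hx, rfl⟩, hy⟩
      · exact hy.1
      · rw [mem_singleton_iff.1 hy, mem_preimage, chi_true (y := some x) hx.1]; exact hx.2
    · intro hy
      by_cases h : y ∈ hat A
      · rcases y with _ | x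
        · exact (hA h).elim
        · exact ⟨_, Or.inr ⟨x, ⟨h, by rwa [mem_preimage, chi_true h] at hy⟩, rfl⟩, rfl⟩
      · exact ⟨_, Or.inl rfl, hy, h⟩
  · rintro _ (rfl | ⟨x, hx, rfl⟩)
    · refine Eventually.of_forall fun G y hy => ?_
      have h1 := hy.1
      rw [mem_preimage, chi_false hy.2] at h1
      rw [mem_preimage, chi_false]
      · exact h1
      · rcases y with _ | x
        · exact fin_notMem (Finset.finite_toSet _)
        · exact fun h => hy.2 (Finset.mem_filter.1 h).2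
    · filter_upwards [eventually_ge_atTop {x}] with G hG
      refine singleton_subset_iff.2 ?_
      have := chi_true (A := (G.filter (· ∈ A) : Finset _)) (y := some x)
        (Finset.mem_filter.2 ⟨hG (Finset.mem_singleton_self x), hx.1⟩)
      exact mem_preimage.2 (this ▸ hx.2)

theorem result : ∃ (Y Z : Type) (_ : TopologicalSpace Y) (_ : TopologicalSpace Z),
    Countable Y ∧ T3Space Y ∧ DiscreteTopology Z ∧ RegularSpace Z ∧
    ¬ @RegularSpace C(Y, Z) (famOpen Y Z (zScott Y Z)) := by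
  classical
  refine ⟨Sp, Bool, inferInstance, inferInstance, inferInstanceAs (Countable (Option _)),
    inferInstance, inferInstance, inferInstance, fun h => ?_⟩
  have h1 := lim1
  have h2 := fun k => lim2 (J_notMem k)
  have hD : IsOpen[famOpen Sp Bool (zScott Sp Bool)] {f : C(Sp, Bool) | f ⁻¹' {false} ∈ HD} :=
    isOpen_generateFrom_of_mem ⟨HD, HD_mem, {false}, isOpen_discrete _, rfl⟩
  letI := famOpen Sp Bool (zScott Sp Bool)
  obtain ⟨C, hC, hCc, hCD⟩ := exists_mem_nhds_isClosed_subset (hD.mem_nhds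
    (x := ContinuousMap.const _ false) ⟨(isOpen_discrete _).preimage continuous_const, rfl,
      fun k => ⟨(k, 0), ⟨le_rfl, le_rfl⟩, rfl⟩⟩)
  obtain ⟨k, hk⟩ := (mem_iInf_of_directed (directed_of_isDirected_le
    (f := fun k : ℕ => 𝓟 {G : Finset (ℕ × ℕ) | ∀ x ∈ G, k ≤ x.1 + x.2})
    (r := (· ≥ ·)) fun a b hab => principal_mono.2 fun G hG x hx => hab.trans (hG x hx)) _).1
      (h1 hC)
  obtain ⟨x, hx, hx'⟩ := (hCD (hCc.mem_of_tendsto (h2 k) (Eventually.of_forall fun G =>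
    hk fun x hx => (Finset.mem_filter.1 hx).2.2))).2.2 k
  have := (chi_true (A := J k) (y := some x) hx).symm.trans hx'
  cases this

end Pool.Agent.Results.MP_150402_gt.NotRegular
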